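import Mathlib

namespace Pool.Agent.H.MP_b8e903_lc
open Set

variable {V : Type} (r : V → V → Prop)

def Sol (S : Set V) (l : V → Fin 3) : Prop :=
  (∀ x ∈ S, l x = 0 → ∃ y ∈ S, r x y ∧ l y ≠ 0) ∧ (∀ x ∈ S, ∀ y ∈ S, r x y → l x ≠ 0 → l x ≠ l y) ∧
    ∀ x ∈ S, (∀ y ∈ S, ¬ r x y) → l x = 1

lemma ext (hi : ∀ x, ¬ r x x) {S : Set V} {v : V} (hv : v ∈ S) {l : V → Fin 3}
    (h : Sol r {x ∈ S | x ≠ v ∧ ¬ r x v} l) (c : Fin 3) (hc : c ≠ 0)
    (h1 : ∀ y ∈ S, y ≠ v → ¬ r y v → r v y → l y ≠ c) (h2 : (∀ y ∈ S, ¬ r v y) → c = 1) :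
    ∃ l, Sol r S l ∧ l v ≠ 0 ∧ ∀ x ∈ S, r x v → l x = 0 := by
  classical
  obtain ⟨a, b, d⟩ := h
  refine ⟨fun x => if x = v then c else if r x v then 0 else l x, ⟨fun x hx h0 => ?_,
    fun x hx y hy hr h0 => ?_, fun x hx h0 => ?_⟩, by simpa, fun x _ h0 => ?_⟩
  · by_cases e : x = v
    · simp [e, hc] at h0
    by_cases e2 : r x v
    · exact ⟨v, hv, e2, by simpa⟩
    obtain ⟨y, y1, y2, y3⟩ := a x ⟨hx, e, e2⟩ (by simpa [e, e2] using h0)
    exact ⟨y, y1.1, y2, by simpa [y1.2.1, y1.2.2] using y3⟩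
  · by_cases e : x = v
    · subst e
      have e3 : y ≠ x := fun e => hi x (e ▸ hr)
      by_cases e4 : r y x
      · simpa [e3, e4] using hc
      · simpa [e3, e4] using (h1 y hy e3 e4 hr).symm
    by_cases e2 : r x v
    · simp [e, e2] at h0
    have e3 : y ≠ v := fun e => e2 (e ▸ hr)
    simp only [e, e2, e3, if_false] at h0 ⊢
    split_ifs with e4
    exacts [h0, b x ⟨hx, e, e2⟩ y ⟨hy, e3, e4⟩ hr h0]
  · by_cases e : x = v
    · subst e; simpa using h2 h0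
    · simpa [e, h0 v hv] using d x ⟨hx, e, h0 v hv⟩ fun y hy => h0 y hy.1
  · have e : x ≠ v := fun e => hi v (e ▸ h0)
    simp [e, h0]

lemma fin (hi : ∀ x, ¬ r x x) (h2 : ∀ x, ∃ a b, ∀ y, r x y → y = a ∨ y = b) (n : ℕ) :
    ∀ S : Set V, S.Finite → S.ncard ≤ n → (∃ l, Sol r S l) ∧
      ∀ v ∈ S, ∃ l, Sol r S l ∧ l v ≠ 0 ∧ ∀ x ∈ S, r x v → l x = 0 := by
  induction n with
  | zero =>
    intro S h1 h3
    obtain rfl := (ncard_eq_zero h1).1 (by omega)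
    exact ⟨⟨fun _ => 0, by simp [Sol]⟩, by simp⟩
  | succ n ih =>
    intro S h1 h3
    have key : ∀ v ∈ S, ∃ l, Sol r S l ∧ l v ≠ 0 ∧ ∀ x ∈ S, r x v → l x = 0 := by
      intro v hv
      obtain ⟨i1, i2⟩ := ih {x ∈ S | x ≠ v ∧ ¬ r x v} (h1.subset (sep_subset _ _)) (by
        have := ncard_lt_ncard (s := {x ∈ S | x ≠ v ∧ ¬ r x v}) ⟨sep_subset _ _,
          fun h => (h hv).2.1 rfl⟩ h1
        omega)
      by_cases h0 : ∀ y ∈ S, ¬ r v y
      · obtain ⟨l, hl⟩ := i1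
        exact ext r hi hv hl 1 (by decide) (fun y a _ _ b => absurd b (h0 y a)) fun _ => rfl
      have one : ∀ a b, (∀ y, r v y → y = a ∨ y = b) → ∀ c ∈ {x ∈ S | x ≠ v ∧ ¬ r x v}, r a c →
          ∃ l, Sol r S l ∧ l v ≠ 0 ∧ ∀ x ∈ S, r x v → l x = 0 := by
        intro a b hab c hc hr
        obtain ⟨l, l1, -, l3⟩ := i2 c hc
        refine ext r hi hv l1 (if l b = 1 then 2 else 1) (by split_ifs <;> decide)
          (fun y y1 y2 y3 y4 => ?_) fun h => absurd h h0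
        rcases hab y y4 with rfl | rfl
        · rw [l3 y ⟨y1, y2, y3⟩ hr]; split_ifs <;> decide
        · split_ifs with h
          exacts [by rw [h]; decide, h]
      obtain ⟨a, b, hab⟩ := h2 v
      by_cases ha : ∃ c ∈ {x ∈ S | x ≠ v ∧ ¬ r x v}, r a c
      · obtain ⟨c, hc, hr⟩ := ha; exact one a b hab c hc hr
      by_cases hb : ∃ c ∈ {x ∈ S | x ≠ v ∧ ¬ r x v}, r b c
      · obtain ⟨c, hc, hr⟩ := hb; exact one b a (fun y h => (hab y h).symm) c hc hr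
      push Not at ha hb
      obtain ⟨l, hl⟩ := i1
      refine ext r hi hv hl 2 (by decide) (fun y y1 y2 y3 y4 => ?_) fun h => absurd h h0
      rw [hl.2.2 y ⟨y1, y2, y3⟩ (by rcases hab y y4 with rfl | rfl; exacts [ha, hb])]
      decide
    refine ⟨?_, key⟩
    rcases S.eq_empty_or_nonempty with rfl | ⟨v, hv⟩
    · exact ⟨fun _ => 0, by simp [Sol]⟩
    · exact (key v hv).imp fun _ h => h.1

theorem main (V : Type) (r : V → V → Prop) (hi : ∀ x, ¬ r x x)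
    (h2 : ∀ x, {y | r x y}.encard ≤ 2) :
    ∃ (M : Set V) (c : V → Bool), (∀ x ∈ M, ∀ y ∈ M, r x y → c x ≠ c y) ∧
      ∀ x, x ∈ M ∨ ∃ y ∈ M, r x y := by
  have h3 : ∀ x, ∃ a b, ∀ y, r x y → y = a ∨ y = b := by
    intro x
    by_cases h : ∃ a, r x a
    · obtain ⟨a, ha⟩ := h
      by_cases h' : ∃ b, r x b ∧ b ≠ a
      · obtain ⟨b, hb, hba⟩ := h'
        refine ⟨a, b, fun y hy => ?_⟩
        by_contra h4
        push Not at h4
        have h5 : ({y, a, b} : Set V).encard = 3 := encard_eq_three.2 ⟨y, a, b, h4.1, h4.2, hba.symm, rfl⟩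
        have h6 := (encard_le_encard (show ({y, a, b} : Set V) ⊆ {y | r x y} by
          rintro z (rfl | rfl | rfl) <;> assumption)).trans (h2 x)
        rw [h5] at h6
        exact absurd h6 (by decide)
      · push Not at h'
        exact ⟨a, a, fun y hy => Or.inl (h' y hy)⟩
    · exact ⟨x, x, fun y hy => absurd ⟨y, hy⟩ h⟩
  choose a b hab using h3
  let C : V → Set (V → Fin 3) := fun x => {l | (l x = 0 → (r x (a x) ∧ l (a x) ≠ 0) ∨
    (r x (b x) ∧ l (b x) ≠ 0)) ∧ (l x ≠ 0 → (r x (a x) → l x ≠ l (a x)) ∧ (r x (b x) → l x ≠ l (b x)))}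
  have hC : ∀ x, IsClosed (C x) := fun x => (isClosed_discrete {p : Fin 3 × Fin 3 × Fin 3 |
    (p.1 = 0 → (r x (a x) ∧ p.2.1 ≠ 0) ∨ (r x (b x) ∧ p.2.2 ≠ 0)) ∧
    (p.1 ≠ 0 → (r x (a x) → p.1 ≠ p.2.1) ∧ (r x (b x) → p.1 ≠ p.2.2))}).preimage
    (f := fun l : V → Fin 3 => (l x, l (a x), l (b x))) (by fun_prop)
  obtain ⟨l, -, hl⟩ := isCompact_univ.inter_iInter_nonempty C hC fun F => by
    obtain ⟨l, l1, l2, -⟩ := (fin r hi (fun x => ⟨_, _, hab x⟩) _ (F ∪ a '' F ∪ b '' F)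
      ((F.finite_toSet.union (F.finite_toSet.image _)).union (F.finite_toSet.image _)) le_rfl).1
    refine ⟨l, trivial, mem_iInter₂.2 fun x hx => ⟨fun h0 => ?_, fun h0 => ⟨fun h => ?_, fun h => ?_⟩⟩⟩
    · obtain ⟨y, -, y2, y3⟩ := l1 x (Or.inl (Or.inl hx)) h0
      rcases hab x y y2 with rfl | rfl
      exacts [Or.inl ⟨y2, y3⟩, Or.inr ⟨y2, y3⟩]
    · exact l2 x (Or.inl (Or.inl hx)) _ (Or.inl (Or.inr ⟨x, hx, rfl⟩)) h h0
    · exact l2 x (Or.inl (Or.inl hx)) _ (Or.inr ⟨x, hx, rfl⟩) h h0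
  have hl' := mem_iInter.1 hl
  refine ⟨{x | l x ≠ 0}, fun x => decide (l x = 1), fun x hx y hy h => ?_, fun x => ?_⟩
  · have h4 : l x ≠ l y := by
      rcases hab x y h with e | e
      · rw [e] at h ⊢; exact ((hl' x).2 hx).1 h
      · rw [e] at h ⊢; exact ((hl' x).2 hx).2 h
    have : ∀ p q : Fin 3, p ≠ 0 → q ≠ 0 → p ≠ q → decide (p = 1) ≠ decide (q = 1) := by decide
    exact this _ _ hx hy h4
  · by_cases h0 : l x = 0
    · rcases (hl' x).1 h0 with h | h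
      exacts [Or.inr ⟨_, h.2, h.1⟩, Or.inr ⟨_, h.2, h.1⟩]
    · exact Or.inl h0

end Pool.Agent.H.MP_b8e903_lc
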